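import Pool.Agent.Q235.FD.Pencil

/-!
# The Tauberian Nagao conjecture with square-root error for almost all families of hyperelliptic curves with `s` prescribed sections
whose coefficients arise from arbitrary integers by changing a few digits

We consider the families `y ^ 2 = f(x) ^ 2 + (x - c₁) ⋯ (x - c_s) (x ^ q + ∑ n(i, j) x ^ i t ^ j)` of hyperelliptic curves of genus
`(s + q - 1) / 2` over the affine space with the coordinates `t = (t₁, ..., t_m)`, with the sections `(c_i, f(c_i))`; for generic
coefficients the rank of the group of the sections of the Jacobian is `s`, and the trace is zero. The coefficients `n(i, j)` arise from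
arbitrary integers by changing a few digits at random positions. The Tauberian Nagao conjecture says that the mean of the fibre averages
`A_p log p` of the Frobenius traces tends to `-s`. We show for almost all choices of the positions that `∑ w_p (A_p + s) log p`, the sum
over the primes `p ≤ x`, is at most `x ^ (1 / 2 + δ)`, for all `w` in an arbitrary family of `x ^ B` weight functions with values in
`[-1, 1]`, for all `x` from `y` to `exp (c r)`, where `r` is the number of the digits changed.

The proof uses the law for functions of the residues of such tuples (library `TH894.NE`), Weil's bound for the fibres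
(library `H341R2`), and the independence of the values at two different points outside the sections.
-/

set_option autoImplicit false

namespace Pool.Agent.Results.MP_1a0ddd_nt.FewDigitPencils

open Finset Polynomial Pool.Agent.Q235.FD

/-- The family `y ^ 2 = f(x) ^ 2 + (x - c₁) ⋯ (x - c_s) (x ^ q + ∑ n(i, j) x ^ i t ^ j)`, `t = (t₁, ..., t_m)`, sum over `i < q` and
`j ∈ {0, ..., E} ^ m`, with `s + q` odd, `q ≥ 2`, `m ≥ 1`, `E ≥ 1`, `2 deg f < s + q`, different integers `c_i` and `f(c_i) ≠ 0`.
For all bases `b ≥ 2`, `δ > 0`, `A` and `B`, for almost all coefficient vectors `n` obtained by changing a few digits of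
arbitrary integers (`ForAlmostAll`), uniformly in the family `θ` of at most `x ^ B` weight functions, the sum of
`w_p (A_p + s) log p` over the primes `p ≤ x` is at most `x ^ (1 / 2 + δ)` in absolute value; here `A_p = fibreAverage f c p n`
is the average of the Frobenius traces of the fibres. -/
theorem result (s q m E : ℕ) (hodd : Odd (s + q)) (hq : 2 ≤ q) (hm : 1 ≤ m) (hE : 1 ≤ E) (f : ℤ[X]) (c : Fin s → ℤ)
    (hf : 2 * f.natDegree < s + q) (hc : Function.Injective c) (hfc : ∀ i, f.eval (c i) ≠ 0)
    (b : ℕ) (hb : 2 ≤ b) (δ : ℝ) (hδ : 0 < δ) (A B : ℕ) :
    ForAlmostAll (Fin q × (Fin m → Fin (E + 1))) b A (fun (θ : Weights B) x n => ∀ w ∈ θ.W x,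
      |∑ p ∈ primesTo x, w p * Real.log p * (fibreAverage f c p n + s)| ≤ (x : ℝ) ^ (1 / 2 + δ)) :=
  pencils hodd hq hm hE hf hc hfc hb hδ A B

end Pool.Agent.Results.MP_1a0ddd_nt.FewDigitPencils
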