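import Pool.Agent.Q11.MS.Final

/-!
# The Tauberian generalized Nagao averages over all number fields and their mean squares

`f : 𝒳 → 𝒴` is a fibration over a number field `K`, given over an affine open part of `𝒴` over which the
fibres are smooth, `B` is the trace, and `W` is the space `(P_X(K̄(𝒴)) / τB(K̄)) ⊗ ℚ` with the action of
the absolute Galois group of `K`.  For a number field `F ⊇ K` the rank of `P_X(F(𝒴)) / τB(F)` is
`dim W^{Gal(K̄/F)}`, and Q1 for `f` over `F` says that `T⁻¹ ∑_{q_v ≤ T} z_v log q_v` tends to this rank,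
for the values `z_v = a_v(B) - 𝔄_v = -𝔄*_v` at the primes `v` of `F`.  The space `W` is the algebraic part
of `H^{2m-1}_c(𝒴, R¹f_*ℚ_ℓ)(m)`, and `T_v = z_v - tr(Frob_v | W)` is the trace on the rest, up to
`O(q_v^{-1/2})`.
The definitions are in `Pool.Agent.Q11.MS.Defs`, `Pool.Agent.W353.FB.Defs`, `Pool.Agent.W353.SP.Defs`,
`Pool.Agent.W353.AT.TDefs`, `Pool.Agent.W353.AT.Defs` and `Pool.Agent.W353.TD.Defs`.
-/

set_option autoImplicit false

namespace Pool.Agent.Results.MP_1a0ddd_nt.MeanSquares

open NumberField Pool.Agent.W353.FB Pool.Agent.Q11.MS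

/-- **The Tauberian generalized Nagao averages over all number fields and their mean squares.**  Let
`W` be a part of the values `z_v = -𝔄*_v` of the fibration `f`, given by `N` numbers of absolute value
`≤ 1`, `T_v = z_v - tr(Frob_v | W)` and `s = N - dim W`.  Every sequence `X_j → ∞` has a subsequence along
which the averages `X⁻¹ ∑_{q_v ≤ X} z_v log q_v` and `X⁻¹ ∑_{q_v ≤ X} T_v² log q_v` converge over all number
fields `F ⊇ K`, and with the weights `Re χ(Frob_v)` over `K` for all Artin representations `χ` of `K`.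
Let `dim W^{Gal(K̄/F)} - δ_F`, `r_F`, `dim (W ⊗ χ)^{Gal(K̄/K)} - y_χ` and `q_χ` be the limits.  Then
* `∑ y_χ² ≤ q_1`, the sum over the irreducible `χ`, where `1` is the trivial representation, so that
  `q_1` is the mean square of `T_v` over `K`;
* for every finite Galois extension `M` of `K` the class functions `θ = ∑ y_χ χ` and `Θ = ∑ q_χ χ` on
  `Gal(M/K)`, the sums over the irreducible `χ` of `Gal(M/K)`, satisfy `|θ(g)|² ≤ Re Θ(g) ≤ s²` for
  all `g`;
* `δ_F² ≤ r_F ≤ s²`, `δ_F = ∑ y_χ dim χ^{Gal(K̄/F)}` and `r_F = ∑ q_χ dim χ^{Gal(K̄/F)}` for all number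
  fields `F ⊇ K`, of any degree;
* for all `c` and `η > 0` there is a finite Galois extension `M` of `K` with `|δ_F - δ_{F ∩ M}| < η` for
  all number fields `F ⊇ K` of degree at most `c`, and the same for `r`. -/
theorem result (K : Type) [Field K] [NumberField K] (f : Fibration K) (n : ℕ)
    (B : Set (MvPolynomial (Fin n) (𝓞 K))) (g : ℕ) (hg : 1 ≤ g) (N : ℕ)
    (W : Type) [AddCommGroup W] [Module ℚ W] [FiniteDimensional ℚ W]
    (ρ : Representation ℚ Gal(AlgebraicClosure K/K) W)
    (hW : IsPartOf (nagaoValue f B g) N ρ) : TauberianSquares (nagaoValue f B g) N ρ :=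
  tauberian (nagao_uniq f B hg) hW

end Pool.Agent.Results.MP_1a0ddd_nt.MeanSquares
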