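import Pool.Agent.Q56.WL.Pencil

/-!
# The Tauberian Nagao conjecture with square-root error for ALL families of hyperelliptic curves with `s` prescribed sections
whose coefficients lie in windows near powers with non-integral exponents

We consider the families `y ^ 2 = f(x) ^ 2 + (x - c₁) ⋯ (x - c_s) (x ^ q + ∑ n(i, j) x ^ i t ^ j)` of hyperelliptic curves of genus
`(s + q - 1) / 2` over the affine space with the coordinates `t = (t₁, ..., t_m)`, with the sections `(c_i, f(c_i))`; for generic
coefficients the rank of the group of the sections of the Jacobian is `s`, and the trace is zero. The coefficients `n(i, j)` are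
arbitrary integers in the windows of length `y ^ V` around the real numbers `β l + ω l * i (μ l) ^ ex l`, where
`i = (i_1, ..., i_dm)` runs through `{1, ..., x} ^ dm`, the exponents `ex l > 1` are not integers, and two coefficients which
depend on the same index have different exponents (for instance `dm = 1`, a one-parameter family with the
exponents `3/2, 5/2, 7/2, ...`).
The Tauberian Nagao conjecture says that the mean of the fibre averages `A_p log p` of the Frobenius traces tends to `-s`. We show
for almost all index vectors, and ALL families with coefficients in the windows, that `∑ w_p (A_p + s) log p`, the sum over the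
primes `p ≤ z`, is at most `z ^ (1 / 2 + δ)`, for all `w` in an arbitrary family of `z ^ B` weight functions with values in
`[-1, 1]`, for all `z` from `y` to `x ^ c`.

The proof uses the moments of sums of functions of the residues of such tuples (`Q56.WL`: products of Fejér kernels, and van der
Corput's method for the exponential sums over the real points), Weil's bound for the fibres (library `H341R2`), and the
independence of the values at two different points outside the sections.
-/

set_option autoImplicit false

namespace Pool.Agent.Results.MP_1a0ddd_nt.NearPowers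

open Finset Polynomial Pool.Agent.Q56.WL
open Pool.Agent.Q235.FD (Weights primesTo fibreAverage)


/-- The family `y ^ 2 = f(x) ^ 2 + (x - c₁) ⋯ (x - c_s) (x ^ q + ∑ n(i, j) x ^ i t ^ j)`, `t = (t₁, ..., t_m)`, sum over `i < q` and
`j ∈ {0, ..., E} ^ m`, with `s + q` odd, `q ≥ 2`, `m ≥ 1`, `E ≥ 1`, `2 deg f < s + q`, different integers `c_i` and `f(c_i) ≠ 0`.
For all exponents, coefficients and maps as in `Setting`, all `δ > 0`, `A`, `V` and `B`, for almost all index vectors and ALL
coefficient vectors `n` in the windows of length `y ^ V` (`ForAlmostAll`), uniformly in the shifts and in the family `θ` of at most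
`z ^ B` weight functions, the sum of `w_p (A_p + s) log p` over the primes `p ≤ z` is at most `z ^ (1 / 2 + δ)` in absolute value;
here `A_p = fibreAverage f c p n` is the average of the Frobenius traces of the fibres. -/
theorem result (s q m E : ℕ) (hodd : Odd (s + q)) (hq : 2 ≤ q) (hm : 1 ≤ m) (hE : 1 ≤ E) (f : ℤ[X]) (c : Fin s → ℤ)
    (hf : 2 * f.natDegree < s + q) (hc : Function.Injective c) (hfc : ∀ i, f.eval (c i) ≠ 0)
    (dm : ℕ) (ex ω : Fin q × (Fin m → Fin (E + 1)) → ℝ) (μ : Fin q × (Fin m → Fin (E + 1)) → Fin dm) (hset : Setting ex ω μ)
    (δ : ℝ) (hδ : 0 < δ) (A V B : ℕ) :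
    ForAlmostAll ex ω μ A V (fun (θ : Weights B) z n => ∀ w ∈ θ.W z,
      |∑ p ∈ primesTo z, w p * Real.log p * (fibreAverage f c p n + s)| ≤ (z : ℝ) ^ (1 / 2 + δ)) :=
  pencils_near hodd hq hm hE hf hc hfc hset hδ A V B

end Pool.Agent.Results.MP_1a0ddd_nt.NearPowers
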