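import Pool.Agent.Q317.ST.DegSum
import Pool.Agent.Q317.LD.Gen

/-!
# Nagao's limit over a number field from explicit radical extensions

`Ω` is an algebraic closure of `ℚ`, number fields are the finite extensions of `ℚ` in `Ω`. The
primes of degree one of a number field `k` are given as ring homomorphisms `φ : 𝓞 k → 𝔽_p` (`p` a
prime); `a p φ` is an arbitrary real function of them, for instance `𝔄*_𝔭 log q_𝔭` for a fibration
over `k`.
-/

set_option autoImplicit false

namespace Pool.Agent.Results.MP_1a0ddd_nt.RadicalFields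

open scoped Classical
open IntermediateField NumberField Filter Asymptotics Pool.Agent.Q317.ST
  Pool.Agent.Q317.ST.Perm Pool.Agent.Q317.LD

attribute [-instance] DivisionRing.toRatAlgebra

variable {Ω : Type} [Field Ω] [Algebra ℚ Ω]

/-- The limit statement with main term `c(K) x` and error `o(x)` for the sum of `a` over the primes
of degree one of `K`. -/
def Law (k K : IntermediateField ℚ Ω) (a : ∀ p : ℕ, (𝓞 k →+* ZMod p) → ℝ)
    (c : IntermediateField ℚ Ω → ℝ) : Prop :=
  Tendsto (fun x : ℕ => primeSum k K a x / x) atTop (nhds (c K))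

/-- the `l + 4` extensions `k(ζ), k(ζ, α), k(α, β), k(β), k(αβ^t)` (`t < l`) of `k` -/
def radicals (k : IntermediateField ℚ Ω) (l : ℕ) (z α β : Ω) : Set (IntermediateField ℚ Ω) :=
  {F | F = fld k z 1 ∨ F = fld k z α ∨ F = fld k α β ∨ F = fld k (α ^ 0 * β ^ 1) 1 ∨
    ∃ t < l, F = fld k (α ^ 1 * β ^ t) 1}

theorem law_iff {k K : IntermediateField ℚ Ω} {a : ∀ p : ℕ, (𝓞 k →+* ZMod p) → ℝ}
    {c : IntermediateField ℚ Ω → ℝ} :
    Law k K a c ↔ (fun x : ℕ => primeSum k K a x - c K * x) =o[atTop] fun x : ℕ => (x : ℝ) := by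
  unfold Law
  have h0 : ∀ᶠ x : ℕ in atTop, (x : ℝ) ≠ 0 := by
    filter_upwards [eventually_gt_atTop 0] with x hx
    exact Nat.cast_ne_zero.2 (Nat.pos_iff_ne_zero.1 hx)
  rw [isLittleO_iff_tendsto' (h0.mono fun x hx h => absurd h hx), ← tendsto_sub_nhds_zero_iff]
  refine tendsto_congr' ?_
  filter_upwards [h0] with x hx
  field_simp

/-- the class of the deviation modulo `o(x)` -/
noncomputable def dev (k : IntermediateField ℚ Ω) (a : ∀ p : ℕ, (𝓞 k →+* ZMod p) → ℝ)
    (c : IntermediateField ℚ Ω → ℝ) (K : IntermediateField ℚ Ω) :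
    (ℕ → ℝ) ⧸ smallSub (fun x : ℕ => (x : ℝ)) :=
  (smallSub (fun x : ℕ => (x : ℝ))).mkQ fun x => primeSum k K a x - c K * x

theorem dev_zero {k : IntermediateField ℚ Ω} {a : ∀ p : ℕ, (𝓞 k →+* ZMod p) → ℝ}
    {c : IntermediateField ℚ Ω → ℝ} {K : IntermediateField ℚ Ω} :
    dev k a c K = 0 ↔ Law k K a c := by
  rw [law_iff]
  unfold dev
  rw [Submodule.mkQ_apply, Submodule.Quotient.mk_eq_zero]
  rfl

theorem respects_dev [IsAlgClosure ℚ Ω] {k : IntermediateField ℚ Ω} [FiniteDimensional ℚ k]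
    {a : ∀ p : ℕ, (𝓞 k →+* ZMod p) → ℝ} {c : IntermediateField ℚ Ω → ℝ}
    (hc : Respects k c) : Respects k (dev k a c) := by
  intro ι _ n K hK h
  obtain ⟨C, x₀, hC⟩ := sum_relation a ι n K hK h
  have h1 := hc ι n K hK h
  have h2 : ∑ i, n i • dev k a c (K i) = (smallSub (fun x : ℕ => (x : ℝ))).mkQ (fun x =>
      ∑ i, n i * primeSum k (K i) a x) := by
    unfold dev
    have h3 : (fun x => ∑ i, (n i : ℝ) * primeSum k (K i) a x) =
        ∑ i, n i • (fun x : ℕ => primeSum k (K i) a x - c (K i) * x) := by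
      funext x
      have h6 : ∀ i, (n i • (fun x : ℕ => primeSum k (K i) a x - c (K i) * x)) x =
          n i * primeSum k (K i) a x - n i * (c (K i) * x) := fun i => by
        rw [Pi.smul_apply, zsmul_eq_mul, mul_sub]
      rw [Finset.sum_apply, Finset.sum_congr rfl fun i _ => h6 i, Finset.sum_sub_distrib]
      have h4 : ∑ i, (n i : ℝ) * (c (K i) * x) = 0 := by
        have h5 : ∑ i, (n i : ℝ) * (c (K i) * x) = (∑ i, n i • c (K i)) * x := by
          rw [Finset.sum_mul]
          exact Finset.sum_congr rfl fun i _ => by rw [zsmul_eq_mul]; ring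
        rw [h5, h1, zero_mul]
      rw [h4, sub_zero]
    rw [h3, map_sum]
    exact Finset.sum_congr rfl fun i _ => by rw [map_zsmul]
  rw [h2, Submodule.mkQ_apply, Submodule.Quotient.mk_eq_zero]
  change (fun x => ∑ i, (n i : ℝ) * primeSum k (K i) a x) =o[atTop] fun x : ℕ => (x : ℝ)
  refine IsLittleO.congr' (f₁ := fun _ => C) (g₁ := fun x : ℕ => (x : ℝ)) ?_ ?_
    (EventuallyEq.refl _ _)
  · exact isLittleO_const_left.2 (Or.inr (tendsto_norm_atTop_atTop.comp
      tendsto_natCast_atTop_atTop))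
  · filter_upwards [eventually_ge_atTop x₀] with x hx
    exact (hC x hx).symm

theorem result (Ω : Type) [Field Ω] [Algebra ℚ Ω] [IsAlgClosure ℚ Ω] (k : IntermediateField ℚ Ω)
    [FiniteDimensional ℚ k] (a : ∀ p : ℕ, (𝓞 k →+* ZMod p) → ℝ) :
    (∀ (l : ℕ) [Fact l.Prime], Module.finrank ℚ k < l → ∀ z α β : Ω, IsPrimitiveRoot z l →
      α ^ l = 2 → β ^ l = 3 →
      (∃ (e : ℕ) (C : ℝ) (x₀ : ℕ), ∀ x ≥ x₀, primeSum k k a x =
        ∑ t : ZMod l, primeSum k (fld k (α ^ 1 * β ^ t.val) 1) a x +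
          primeSum k (fld k (α ^ 0 * β ^ 1) 1) a x - primeSum k (fld k α β) a x -
          e * primeSum k (fld k z 1) a x - (l - 1) * primeSum k (fld k (α ^ 1 * β ^ 0) 1) a x +
          e * primeSum k (fld k z α) a x + C) ∧
      ∀ c : IntermediateField ℚ Ω → ℝ, Respects k c →
        (∀ F ∈ radicals k l z α β, Law k F a c) → Law k k a c) ∧
    (∀ (N n : ℕ) (c : IntermediateField ℚ Ω → ℝ), Respects k c →
      (∀ F, Large k N n F → Law k F a c) → Law k k a c) := by
  constructor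
  · intro l hl hd z α β hz hα hβ
    obtain ⟨e, he⟩ := relation k hd hz hα hβ
    have hfin : ∀ i : ZMod l ⊕ Fin 6, FiniteDimensional ℚ
        (Sum.elim (fun t : ZMod l => fld k (α ^ 1 * β ^ t.val) 1)
          ![fld k (α ^ 0 * β ^ 1) 1, fld k α β, fld k z 1, fld k (α ^ 1 * β ^ 0) 1, fld k z α, k] i :
          IntermediateField ℚ Ω) ∧ k ≤
        (Sum.elim (fun t : ZMod l => fld k (α ^ 1 * β ^ t.val) 1)
          ![fld k (α ^ 0 * β ^ 1) 1, fld k α β, fld k z 1, fld k (α ^ 1 * β ^ 0) 1, fld k z α, k] i :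
          IntermediateField ℚ Ω) := by
      rintro (t | i)
      · exact ⟨finite_fld _ _ _, le_fld _ _ _⟩
      · fin_cases i
        · exact ⟨finite_fld _ _ _, le_fld _ _ _⟩
        · exact ⟨finite_fld _ _ _, le_fld _ _ _⟩
        · exact ⟨finite_fld _ _ _, le_fld _ _ _⟩
        · exact ⟨finite_fld _ _ _, le_fld _ _ _⟩
        · exact ⟨finite_fld _ _ _, le_fld _ _ _⟩
        · exact ⟨by assumption, le_rfl⟩
    have hrel : ∀ σ ∈ k.fixingSubgroup, ∑ i : ZMod l ⊕ Fin 6,
        (Sum.elim (fun _ => 1) ![1, -1, -(e : ℤ), -((l : ℤ) - 1), (e : ℤ), -1] i : ℤ) *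
        (fix k (Sum.elim (fun t : ZMod l => fld k (α ^ 1 * β ^ t.val) 1)
          ![fld k (α ^ 0 * β ^ 1) 1, fld k α β, fld k z 1, fld k (α ^ 1 * β ^ 0) 1, fld k z α, k] i)
          σ : ℤ) = 0 := by
      intro σ hσ
      have h4 := he σ hσ
      rw [Fintype.sum_sum_type, Fin.sum_univ_six]
      simp only [Sum.elim_inl, Sum.elim_inr, Matrix.cons_val, one_mul]
      linear_combination h4
    constructor
    · obtain ⟨C, x₀, hC⟩ := sum_relation a (ZMod l ⊕ Fin 6) _ _ hfin hrel
      refine ⟨e, -C, x₀, fun x hx => ?_⟩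
      have h5 := hC x hx
      rw [Fintype.sum_sum_type, Fin.sum_univ_six] at h5
      simp only [Sum.elim_inl, Sum.elim_inr, Matrix.cons_val] at h5
      push_cast at h5
      simp only [one_mul] at h5
      linear_combination -h5
    · intro c hc h
      have h5 := respects_dev (a := a) hc (ZMod l ⊕ Fin 6) _ _ hfin hrel
      rw [Fintype.sum_sum_type, Fin.sum_univ_six] at h5
      simp only [Sum.elim_inl, Sum.elim_inr, Matrix.cons_val, one_smul, neg_smul] at h5
      have m1 : dev k a c (fld k z 1) = 0 := dev_zero.2 (h _ (Or.inl rfl))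
      have m2 : dev k a c (fld k z α) = 0 := dev_zero.2 (h _ (Or.inr (Or.inl rfl)))
      have m3 : dev k a c (fld k α β) = 0 := dev_zero.2 (h _ (Or.inr (Or.inr (Or.inl rfl))))
      have m4 : dev k a c (fld k (α ^ 0 * β ^ 1) 1) = 0 :=
        dev_zero.2 (h _ (Or.inr (Or.inr (Or.inr (Or.inl rfl)))))
      have m5 : ∀ t < l, dev k a c (fld k (α ^ 1 * β ^ t) 1) = 0 := fun t ht =>
        dev_zero.2 (h _ (Or.inr (Or.inr (Or.inr (Or.inr ⟨t, ht, rfl⟩)))))
      rw [m1, m2, m3, m4, m5 0 hl.out.pos, Finset.sum_eq_zero fun t _ => m5 _ (ZMod.val_lt t)] at h5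
      simp only [smul_zero, neg_zero, add_zero, zero_add, neg_eq_zero] at h5
      exact dev_zero.1 h5
  · intro N n c hc h
    have h1 := mem_closure k (respects_dev (a := a) hc) N n
    have h2 : AddSubgroup.closure {x | ∃ F, Large k N n F ∧ dev k a c F = x} ≤ ⊥ := by
      rw [AddSubgroup.closure_le]
      rintro x ⟨F, hF, rfl⟩
      exact dev_zero.2 (h F hF)
    exact dev_zero.1 (h2 h1)

end Pool.Agent.Results.MP_1a0ddd_nt.RadicalFields
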